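import Pool.Agent.H207R2.BL.Plane

/-!
# Reflection positivity of the Potts partition function at real `q ≥ 4`

Weighted version of `Pool.Agent.H207R2.BL.psd`: the partition functions of crossless halves with
arbitrary real edge weights.
-/

set_option autoImplicit false
set_option linter.unusedSectionVars false

namespace Pool.Agent.Q248.RP

open Polynomial Finset
open Pool.Agent.H207R2.BL

noncomputable section

/-- number of connected components of the graph with the edges `A` -/
def kc {T : Type} (A : Finset (Sym2 T)) : ℕ := Nat.card (Quotient (comp A))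

open Classical in
/-- is the edge `e` monochromatic under `g`? -/
def mono {T κ : Type} (g : T → κ) (e : Sym2 T) : ℝ := if (Sym2.map g e).IsDiag then 1 else 0

/-- weight of a colouring -/
def pw {T κ : Type} (S : Finset (Sym2 T)) (w : Sym2 T → ℝ) (g : T → κ) : ℝ :=
  ∏ e ∈ S, (1 + w e * mono g e)

theorem mono_map {T T' κ : Type} (f : T → T') (g : T' → κ) (e : Sym2 T) :
    mono g (Sym2.map f e) = mono (g ∘ f) e := by
  unfold mono
  rw [Sym2.map_map]

theorem comp_le_iff {T κ : Type} (A : Finset (Sym2 T)) (g : T → κ) :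
    comp A ≤ Setoid.ker g ↔ ∀ e ∈ A, (Sym2.map g e).IsDiag := by
  rw [comp_le]
  constructor
  · intro h e he
    induction e using Sym2.ind with
    | _ a b =>
      rw [Sym2.map_mk, Sym2.mk_isDiag_iff]
      exact h a b he
  · intro h a b hab
    have := h _ hab
    rwa [Sym2.map_mk, Sym2.mk_isDiag_iff] at this

theorem pw_expand {T κ : Type} [DecidableEq T] (S : Finset (Sym2 T)) (w : Sym2 T → ℝ) (g : T → κ) :
    pw S w g = ∑ A ∈ S.powerset, (∏ e ∈ A, w e) * ind (comp A) g := by
  classical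
  unfold pw
  rw [Finset.prod_one_add]
  refine Finset.sum_congr rfl (fun A _ => ?_)
  rw [Finset.prod_mul_distrib]
  congr 1
  have h2 : (∏ e ∈ A, mono g e) = if ∀ e ∈ A, (Sym2.map g e).IsDiag then 1 else 0 := by
    unfold mono
    rw [Finset.prod_ite_zero]
    simp
  rw [h2]
  unfold ind
  simp only [comp_le_iff]

/-- sum over the colourings -/
theorem sum_ind_self {T : Type} [Fintype T] [DecidableEq T] (A : Finset (Sym2 T)) (k : ℕ) :
    ∑ g : T → Fin k, ind (comp A) g = (k : ℝ) ^ kc A := by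
  have h := sum_ind k (comp A) (comp A)
  rw [sup_idem] at h
  rw [kc, ← h]
  refine Finset.sum_congr rfl (fun g _ => ?_)
  unfold ind
  split_ifs <;> simp

section Z

variable {T : Type} [Fintype T] [DecidableEq T]

/-- the partition function as a polynomial in `q` -/
def Zp (S : Finset (Sym2 T)) (w : Sym2 T → ℝ) : ℝ[X] :=
  ∑ A ∈ S.powerset, C (∏ e ∈ A, w e) * X ^ kc A

/-- the partition function -/
def Z (S : Finset (Sym2 T)) (w : Sym2 T → ℝ) (q : ℝ) : ℝ :=
  ∑ A ∈ S.powerset, (∏ e ∈ A, w e) * q ^ kc A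

theorem Zp_eval (S : Finset (Sym2 T)) (w : Sym2 T → ℝ) (q : ℝ) : (Zp S w).eval q = Z S w q := by
  unfold Zp Z
  simp only [Polynomial.eval_finsetSum, Polynomial.eval_mul, Polynomial.eval_C,
    Polynomial.eval_pow, Polynomial.eval_X]

theorem Z_nat (S : Finset (Sym2 T)) (w : Sym2 T → ℝ) (k : ℕ) :
    Z S w (k : ℝ) = ∑ g : T → Fin k, pw S w g := by
  unfold Z
  simp_rw [pw_expand]
  rw [Finset.sum_comm]
  refine Finset.sum_congr rfl (fun A _ => ?_)
  rw [← Finset.mul_sum, sum_ind_self]

end Z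

theorem poly_ext {p r : ℝ[X]} (h : ∀ k : ℕ, p.eval (k : ℝ) = r.eval (k : ℝ)) : p = r := by
  apply Polynomial.eq_of_infinite_eval_eq
  apply Set.infinite_of_injective_forall_mem (f := fun k : ℕ => (k : ℝ)) Nat.cast_injective
  intro k
  exact h k

/-- inner sum -/
def innerw {V : Type} [Fintype V] [DecidableEq V] {n : ℕ} (S : Finset (Sym2 (V ⊕ Fin n)))
    (u : Sym2 (V ⊕ Fin n) → ℝ) (k : ℕ) (c : Fin n → Fin k) : ℝ :=
  ∑ x : V → Fin k, pw S u (Sum.elim x c)

/-- **Reflection positivity of the Potts partition function** for `q ≥ 4`. -/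
theorem psdw {n : ℕ} {J : Type} [Fintype J] (V : J → Type) [∀ i, Fintype (V i)]
    [∀ i, DecidableEq (V i)]
    (N : ∀ i, SimpleGraph (V i ⊕ Fin n)) (hN : ∀ i, Crossless (N i))
    (S : ∀ i, Finset (Sym2 (V i ⊕ Fin n))) (hS : ∀ i, (S i : Set (Sym2 (V i ⊕ Fin n))) ⊆ (N i).edgeSet)
    (u : ∀ i, Sym2 (V i ⊕ Fin n) → ℝ)
    (p : J → J → ℝ[X]) (hp : ∀ i j, ∀ k : ℕ, (p i j).eval (k : ℝ) =
      ∑ c : Fin n → Fin k, innerw (S i) (u i) k c * innerw (S j) (u j) k c)
    (q : ℝ) (hq : 4 ≤ q) (a : J → ℝ) :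
    0 ≤ ∑ i, ∑ j, a i * a j * (p i j).eval q := by
  classical
  choose m hm using fun (i : J) (A : Finset (Sym2 (V i ⊕ Fin n))) => ext_count (comp A)
  -- expansion of `innerw`
  have hinner : ∀ i k (c : Fin n → Fin k), innerw (S i) (u i) k c =
      ∑ A ∈ (S i).powerset, (∏ e ∈ A, u i e) * (k : ℝ) ^ (m i A) *
        ind (Setoid.comap Sum.inr (comp A)) c := by
    intro i k c
    unfold innerw
    simp_rw [pw_expand]
    rw [Finset.sum_comm]
    refine Finset.sum_congr rfl (fun A _ => ?_)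
    rw [← Finset.mul_sum, hm i A k c]
    ring
  -- the polynomials
  let P : J → J → ℝ[X] := fun i j =>
    ∑ A ∈ (S i).powerset, ∑ B ∈ (S j).powerset,
      C ((∏ e ∈ A, u i e) * (∏ e ∈ B, u j e)) *
        X ^ (m i A + m j B + Nat.card (Quotient (Setoid.comap Sum.inr (comp A) ⊔
          Setoid.comap Sum.inr (comp B))))
  have hP : ∀ i j, p i j = P i j := by
    intro i j
    apply poly_ext
    intro k
    rw [hp i j k]
    simp_rw [hinner, Finset.sum_mul_sum]
    rw [Finset.sum_comm]
    simp only [P, Polynomial.eval_finsetSum, Polynomial.eval_mul, Polynomial.eval_C,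
      Polynomial.eval_pow, Polynomial.eval_X]
    refine Finset.sum_congr rfl (fun A _ => ?_)
    rw [Finset.sum_comm]
    refine Finset.sum_congr rfl (fun B _ => ?_)
    rw [pow_add, pow_add, ← sum_ind, Finset.mul_sum, Finset.mul_sum]
    refine Finset.sum_congr rfl (fun c _ => ?_)
    ring
  have hmain := gram n q hq (I := (i : J) × Finset (Sym2 (V i ⊕ Fin n)))
    (Finset.univ.sigma (fun i => (S i).powerset))
    (fun x => a x.1 * ((∏ e ∈ x.2, u x.1 e) * q ^ (m x.1 x.2)))
    (fun x => Setoid.comap Sum.inr (comp x.2)) (by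
      intro x hx
      rw [Finset.mem_sigma] at hx
      refine comap_nc (N x.1) (hN x.1) x.2 ?_
      have := Finset.mem_powerset.1 hx.2
      intro e he
      exact hS x.1 (this (Finset.mem_coe.1 he)))
  rw [Finset.sum_sigma] at hmain
  refine hmain.trans_eq ?_
  refine Finset.sum_congr rfl (fun i _ => ?_)
  have h1 : ∀ A ∈ (S i).powerset, (∑ y ∈ Finset.univ.sigma (fun i => (S i).powerset),
      a i * ((∏ e ∈ A, u i e) * q ^ (m i A)) * (a y.1 * ((∏ e ∈ y.2, u y.1 e) * q ^ (m y.1 y.2))) *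
        q ^ (Nat.card (Quotient (Setoid.comap Sum.inr (comp A) ⊔
          Setoid.comap Sum.inr (comp y.2))))) = ∑ j, ∑ B ∈ (S j).powerset,
      a i * ((∏ e ∈ A, u i e) * q ^ (m i A)) * (a j * ((∏ e ∈ B, u j e) * q ^ (m j B))) *
        q ^ (Nat.card (Quotient (Setoid.comap Sum.inr (comp A) ⊔
          Setoid.comap Sum.inr (comp B)))) := by
    intro A _
    rw [Finset.sum_sigma]
  rw [Finset.sum_congr rfl h1, Finset.sum_comm]
  refine Finset.sum_congr rfl (fun j _ => ?_)
  rw [hP i j]
  simp only [P, Polynomial.eval_finsetSum, Polynomial.eval_mul, Polynomial.eval_C,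
      Polynomial.eval_pow, Polynomial.eval_X, Finset.mul_sum]
  refine Finset.sum_congr rfl (fun A _ => Finset.sum_congr rfl (fun B _ => ?_))
  rw [pow_add, pow_add]
  ring

end

end Pool.Agent.Q248.RP
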