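import Pool.Agent.Q248.RP.Core

/-!
# The Potts partition function of the double of a half plane graph
-/

set_option autoImplicit false
set_option linter.unusedSectionVars false

namespace Pool.Agent.Q248.RP

open Polynomial Finset
open Pool.Agent.H207R2.BL

noncomputable section

/-- a weighted half: a graph with the boundary vertices `1, …, n`, crossless, edges `S`, weights
`u` -/
structure Hf (n : ℕ) where
  V : Type
  [fin : Fintype V]
  [dec : DecidableEq V]
  N : SimpleGraph (V ⊕ Fin n)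
  cr : Crossless N
  S : Finset (Sym2 (V ⊕ Fin n))
  hS : (S : Set (Sym2 (V ⊕ Fin n))) ⊆ N.edgeSet
  u : Sym2 (V ⊕ Fin n) → ℝ

attribute [instance] Hf.fin Hf.dec

/-- the sum over the colourings of the inner vertices -/
def Hf.inn {n : ℕ} (H : Hf n) (k : ℕ) (c : Fin n → Fin k) : ℝ := innerw H.S H.u k c

/-- the half without inner vertices and edges -/
def Hf.empty (n : ℕ) : Hf n where
  V := Empty
  N := emptyHalf n
  cr := emptyHalf_crossless n
  S := ∅
  hS := by simp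
  u := fun _ => 0

theorem Hf.empty_inn (n k : ℕ) (c : Fin n → Fin k) : (Hf.empty n).inn k c = 1 := by
  change ∑ x : Empty → Fin k, pw ∅ (fun _ => 0) (Sum.elim x c) = 1
  simp [pw]

/-- reflection positivity for a family of weighted halves -/
theorem psdh {n : ℕ} {J : Type} [Fintype J] (H : J → Hf n)
    (p : J → J → ℝ[X]) (hp : ∀ i j, ∀ k : ℕ, (p i j).eval (k : ℝ) =
      ∑ c : Fin n → Fin k, (H i).inn k c * (H j).inn k c)
    (q : ℝ) (hq : 4 ≤ q) (a : J → ℝ) :
    0 ≤ ∑ i, ∑ j, a i * a j * (p i j).eval q :=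
  psdw (fun i => (H i).V) (fun i => (H i).N) (fun i => (H i).cr) (fun i => (H i).S)
    (fun i => (H i).hS) (fun i => (H i).u) p hp q hq a

section

variable {V W : Type} {n : ℕ}

/-- the inclusion of the first half -/
def i1 : V ⊕ Fin n → (V ⊕ W) ⊕ Fin n := Sum.map Sum.inl id

/-- the inclusion of the second half -/
def i2 : W ⊕ Fin n → (V ⊕ W) ⊕ Fin n := Sum.map Sum.inr id

theorem i1_inj : Function.Injective (i1 : V ⊕ Fin n → (V ⊕ W) ⊕ Fin n) :=
  Sum.map_injective.2 ⟨Sum.inl_injective, Function.injective_id⟩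

theorem i2_inj : Function.Injective (i2 : W ⊕ Fin n → (V ⊕ W) ⊕ Fin n) :=
  Sum.map_injective.2 ⟨Sum.inr_injective, Function.injective_id⟩

theorem mem_glue (N : SimpleGraph (V ⊕ Fin n)) (M : SimpleGraph (W ⊕ Fin n))
    (e : Sym2 ((V ⊕ W) ⊕ Fin n)) :
    e ∈ (glue N M).edgeSet ↔
      (∃ e0 ∈ N.edgeSet, Sym2.map i1 e0 = e) ∨ (∃ e0 ∈ M.edgeSet, Sym2.map i2 e0 = e) := by
  constructor
  · intro h
    induction e using Sym2.ind with
    | _ x y =>
      rcases h with h | h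
      · rw [SimpleGraph.map_adj'] at h
        obtain ⟨_, a, b, hab, rfl, rfl⟩ := h
        exact Or.inl ⟨s(a, b), hab, rfl⟩
      · rw [SimpleGraph.map_adj'] at h
        obtain ⟨_, a, b, hab, rfl, rfl⟩ := h
        exact Or.inr ⟨s(a, b), hab, rfl⟩
  · rintro (⟨e0, he0, rfl⟩ | ⟨e0, he0, rfl⟩)
    · induction e0 using Sym2.ind with
      | _ a b =>
        have hab : N.Adj a b := he0
        left
        rw [SimpleGraph.map_adj']
        exact ⟨i1_inj.ne hab.ne, a, b, hab, rfl, rfl⟩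
    · induction e0 using Sym2.ind with
      | _ a b =>
        have hab : M.Adj a b := he0
        right
        rw [SimpleGraph.map_adj']
        exact ⟨i2_inj.ne hab.ne, a, b, hab, rfl, rfl⟩

/-- the edge `e` joins two boundary vertices -/
def Bd (e : Sym2 (V ⊕ Fin n)) : Prop := ∀ a ∈ e, ∃ i : Fin n, a = Sum.inr i

theorem bd_map {e : Sym2 (V ⊕ Fin n)} (he : Bd e) :
    Sym2.map (i1 : V ⊕ Fin n → (V ⊕ V) ⊕ Fin n) e = Sym2.map i2 e := by
  induction e using Sym2.ind with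
  | _ a b =>
    obtain ⟨i, rfl⟩ := he a (Sym2.mem_mk_left _ _)
    obtain ⟨j, rfl⟩ := he b (Sym2.mem_mk_right _ _)
    rfl

theorem mono_bd {κ : Type} {e : Sym2 (V ⊕ Fin n)} (he : Bd e) (x y : V → κ) (c : Fin n → κ) :
    mono (Sum.elim x c) e = mono (Sum.elim y c) e := by
  induction e using Sym2.ind with
  | _ a b =>
    obtain ⟨i, rfl⟩ := he a (Sym2.mem_mk_left _ _)
    obtain ⟨j, rfl⟩ := he b (Sym2.mem_mk_right _ _)
    rfl

theorem mono_cases {T κ : Type} (g : T → κ) (e : Sym2 T) : mono g e = 0 ∨ mono g e = 1 := by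
  unfold mono
  split_ifs
  · exact Or.inr rfl
  · exact Or.inl rfl

variable [Fintype V] [DecidableEq V]

/-- the weights of one half of the double: an edge of weight `w` between boundary vertices is
replaced by two parallel edges of weight `√(1 + w) - 1` -/
def half (w : Sym2 ((V ⊕ V) ⊕ Fin n) → ℝ) (e : Sym2 (V ⊕ Fin n)) : ℝ :=
  open Classical in
  if Bd e then Real.sqrt (1 + w (Sym2.map i1 e)) - 1 else w (Sym2.map i1 e)

theorem pw_glue (N : SimpleGraph (V ⊕ Fin n)) (S : Finset (Sym2 (V ⊕ Fin n)))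
    (hS : ∀ e, e ∈ S ↔ e ∈ N.edgeSet) (D : Finset (Sym2 ((V ⊕ V) ⊕ Fin n)))
    (hD : ∀ e, e ∈ D ↔ e ∈ (glue N N).edgeSet)
    (w : Sym2 ((V ⊕ V) ⊕ Fin n) → ℝ)
    (hsym : ∀ e ∈ S, w (Sym2.map i1 e) = w (Sym2.map i2 e))
    (hax : ∀ e ∈ S, Bd e → -1 ≤ w (Sym2.map i1 e))
    {κ : Type} (x y : V → κ) (c : Fin n → κ) :
    pw D w (Sum.elim (Sum.elim x y) c) =
      pw S (half w) (Sum.elim x c) * pw S (half w) (Sum.elim y c) := by
  classical
  have e1 : ((Sum.elim (Sum.elim x y) c : (V ⊕ V) ⊕ Fin n → κ) ∘ i1) = Sum.elim x c := by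
    funext a; rcases a with a | a <;> rfl
  have e2 : ((Sum.elim (Sum.elim x y) c : (V ⊕ V) ⊕ Fin n → κ) ∘ i2) = Sum.elim y c := by
    funext a; rcases a with a | a <;> rfl
  have j1 := Sym2.map.injective (i1_inj (V := V) (W := V) (n := n))
  have j2 := Sym2.map.injective (i2_inj (V := V) (W := V) (n := n))
  set Si := S.filter (fun e => ¬ Bd e) with hSi
  set Sb := S.filter (fun e => Bd e) with hSb
  have hnb : ∀ e : Sym2 (V ⊕ Fin n), ¬ Bd e → ∃ v, Sum.inl v ∈ e := by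
    intro e he
    unfold Bd at he
    push Not at he
    obtain ⟨a, ha, hne⟩ := he
    rcases a with a | a
    · exact ⟨a, ha⟩
    · exact absurd rfl (hne a)
  have hDu : D = (Si.image (Sym2.map i1) ∪ Si.image (Sym2.map i2)) ∪ Sb.image (Sym2.map i1) := by
    ext e
    rw [hD, mem_glue, mem_union, mem_union, mem_image, mem_image, mem_image]
    constructor
    · rintro (⟨e0, he0, rfl⟩ | ⟨e0, he0, rfl⟩)
      · by_cases hb : Bd e0
        · exact Or.inr ⟨e0, mem_filter.2 ⟨(hS _).2 he0, hb⟩, rfl⟩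
        · exact Or.inl (Or.inl ⟨e0, mem_filter.2 ⟨(hS _).2 he0, hb⟩, rfl⟩)
      · by_cases hb : Bd e0
        · exact Or.inr ⟨e0, mem_filter.2 ⟨(hS _).2 he0, hb⟩, bd_map hb⟩
        · exact Or.inl (Or.inr ⟨e0, mem_filter.2 ⟨(hS _).2 he0, hb⟩, rfl⟩)
    · rintro ((⟨e0, he0, rfl⟩ | ⟨e0, he0, rfl⟩) | ⟨e0, he0, rfl⟩)
      · exact Or.inl ⟨e0, (hS _).1 (mem_filter.1 he0).1, rfl⟩
      · exact Or.inr ⟨e0, (hS _).1 (mem_filter.1 he0).1, rfl⟩
      · exact Or.inl ⟨e0, (hS _).1 (mem_filter.1 he0).1, rfl⟩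
  have hd1 : Disjoint (Si.image (Sym2.map i1)) (Si.image (Sym2.map (i2 : V ⊕ Fin n → (V ⊕ V) ⊕ Fin n))) := by
    rw [Finset.disjoint_left]
    intro e h1 h2
    obtain ⟨a, ha, rfl⟩ := mem_image.1 h1
    obtain ⟨b, hb, hab⟩ := mem_image.1 h2
    obtain ⟨v, hv⟩ := hnb a (mem_filter.1 ha).2
    have h3 : i1 (Sum.inl v) ∈ Sym2.map (i1 : V ⊕ Fin n → (V ⊕ V) ⊕ Fin n) a :=
      Sym2.mem_map.2 ⟨_, hv, rfl⟩
    rw [← hab, Sym2.mem_map] at h3
    obtain ⟨z, _, hz⟩ := h3
    rcases z with z | z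
    · have := Sum.inl_injective hz
      exact absurd this (by simp)
    · exact absurd hz (by simp [i1, i2])
  have hd2 : Disjoint (Si.image (Sym2.map i1) ∪ Si.image (Sym2.map i2))
      (Sb.image (Sym2.map (i1 : V ⊕ Fin n → (V ⊕ V) ⊕ Fin n))) := by
    rw [Finset.disjoint_left]
    intro e h1 h2
    obtain ⟨b, hb, rfl⟩ := mem_image.1 h2
    have hbb := (mem_filter.1 hb).2
    rcases mem_union.1 h1 with h1 | h1
    · obtain ⟨a, ha, hab⟩ := mem_image.1 h1
      have := j1 hab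
      subst this
      exact (mem_filter.1 ha).2 hbb
    · obtain ⟨a, ha, hab⟩ := mem_image.1 h1
      rw [bd_map hbb] at hab
      have := j2 hab
      subst this
      exact (mem_filter.1 ha).2 hbb
  have hsplit : ∀ f : Sym2 (V ⊕ Fin n) → ℝ, ∏ e ∈ S, f e = (∏ e ∈ Si, f e) * ∏ e ∈ Sb, f e := by
    intro f
    rw [hSi, hSb, mul_comm, Finset.prod_filter_mul_prod_filter_not]
  unfold pw
  rw [hDu, Finset.prod_union hd2, Finset.prod_union hd1, Finset.prod_image (fun _ _ _ _ h => j1 h),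
    Finset.prod_image (fun _ _ _ _ h => j2 h), Finset.prod_image (fun _ _ _ _ h => j1 h),
    hsplit, hsplit]
  have t1 : ∏ e ∈ Si, (1 + w (Sym2.map i1 e) * mono (Sum.elim (Sum.elim x y) c) (Sym2.map i1 e)) =
      ∏ e ∈ Si, (1 + half w e * mono (Sum.elim x c) e) := by
    refine Finset.prod_congr rfl (fun e he => ?_)
    rw [mono_map, e1, half, if_neg (mem_filter.1 he).2]
  have t2 : ∏ e ∈ Si, (1 + w (Sym2.map i2 e) * mono (Sum.elim (Sum.elim x y) c) (Sym2.map i2 e)) =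
      ∏ e ∈ Si, (1 + half w e * mono (Sum.elim y c) e) := by
    refine Finset.prod_congr rfl (fun e he => ?_)
    rw [mono_map, e2, half, if_neg (mem_filter.1 he).2, hsym e (mem_filter.1 he).1]
  have t3 : ∏ e ∈ Sb, (1 + w (Sym2.map i1 e) * mono (Sum.elim (Sum.elim x y) c) (Sym2.map i1 e)) =
      (∏ e ∈ Sb, (1 + half w e * mono (Sum.elim x c) e)) *
        ∏ e ∈ Sb, (1 + half w e * mono (Sum.elim y c) e) := by
    rw [← Finset.prod_mul_distrib]
    refine Finset.prod_congr rfl (fun e he => ?_)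
    obtain ⟨heS, hb⟩ := mem_filter.1 he
    rw [mono_map, e1, ← mono_bd hb x y c, half, if_pos hb]
    have h0 : 0 ≤ 1 + w (Sym2.map i1 e) := by linarith [hax e heS hb]
    have hs := Real.sq_sqrt h0
    rcases mono_cases (Sum.elim x c) e with h | h
    · rw [h]; ring
    · rw [h]; linear_combination (-1 : ℝ) * hs
  rw [t1, t2, t3]
  ring

theorem sum_elim {W' : Type} [Fintype W'] [DecidableEq W'] {k : ℕ}
    (F : ((V ⊕ W') ⊕ Fin n → Fin k) → ℝ) :
    ∑ g, F g = ∑ c : Fin n → Fin k, ∑ x : V → Fin k, ∑ y : W' → Fin k,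
      F (Sum.elim (Sum.elim x y) c) := by
  rw [← (Equiv.sumArrowEquivProdArrow (V ⊕ W') (Fin n) (Fin k)).symm.sum_comp]
  rw [Fintype.sum_prod_type, Finset.sum_comm]
  refine Finset.sum_congr rfl (fun c _ => ?_)
  rw [← (Equiv.sumArrowEquivProdArrow V W' (Fin k)).symm.sum_comp]
  rw [Fintype.sum_prod_type]
  rfl

/-- **The main inequality.** -/
theorem potts (N : SimpleGraph (V ⊕ Fin n)) (hN : Crossless N) (S : Finset (Sym2 (V ⊕ Fin n)))
    (hS : ∀ e, e ∈ S ↔ e ∈ N.edgeSet) (D : Finset (Sym2 ((V ⊕ V) ⊕ Fin n)))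
    (hD : ∀ e, e ∈ D ↔ e ∈ (glue N N).edgeSet)
    (w : Sym2 ((V ⊕ V) ⊕ Fin n) → ℝ)
    (hsym : ∀ e ∈ S, w (Sym2.map i1 e) = w (Sym2.map i2 e))
    (hax : ∀ e ∈ S, Bd e → -1 ≤ w (Sym2.map i1 e)) (q : ℝ) (hq : 4 ≤ q) :
    Z S (half w) q ^ 2 ≤ q ^ n * Z D w q := by
  classical
  have hq0 : 0 < q := by linarith
  apply quad_ineq (pow_pos hq0 n)
  intro x y
  let H1 : Hf n := { V := V, N := N, cr := hN, S := S, hS := fun e he => (hS e).1 he, u := half w }
  let H0 : Hf n := Hf.empty n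
  let P : Bool → Bool → ℝ[X] := fun a b =>
    cond a (cond b (Zp D w) (Zp S (half w))) (cond b (Zp S (half w)) (X ^ n))
  have hin : ∀ (k : ℕ) (c : Fin n → Fin k), H0.inn k c = 1 := Hf.empty_inn n
  have hsum1 : ∀ k : ℕ, (Zp S (half w)).eval (k : ℝ) =
      ∑ c : Fin n → Fin k, H1.inn k c := by
    intro k
    rw [Zp_eval, Z_nat]
    rw [← (Equiv.sumArrowEquivProdArrow V (Fin n) (Fin k)).symm.sum_comp]
    rw [Fintype.sum_prod_type, Finset.sum_comm]
    rfl
  have hP : ∀ a b, ∀ k : ℕ, (P a b).eval (k : ℝ) =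
      ∑ c : Fin n → Fin k, (cond a H1 H0).inn k c * (cond b H1 H0).inn k c := by
    intro a b k
    cases a <;> cases b
    · simp only [P, cond_false, hin, eval_pow, eval_X]
      simp
    · simp only [P, cond_false, cond_true, hin, one_mul]
      exact hsum1 k
    · simp only [P, cond_false, cond_true, hin, mul_one]
      exact hsum1 k
    · simp only [P, cond_true]
      rw [Zp_eval, Z_nat, sum_elim]
      refine Finset.sum_congr rfl (fun c _ => ?_)
      change _ = innerw S (half w) k c * innerw S (half w) k c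
      unfold innerw
      rw [Finset.sum_mul_sum]
      refine Finset.sum_congr rfl (fun x _ => Finset.sum_congr rfl (fun y _ => ?_))
      exact pw_glue N S hS D hD w hsym hax x y c
  have := psdh (fun b : Bool => cond b H1 H0) P hP q hq (fun b => cond b x y)
  simp only [Fintype.sum_bool, P, cond_true, cond_false, eval_pow, eval_X, Zp_eval] at this
  linarith

end

end

end Pool.Agent.Q248.RP
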