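import Pool.Agent.Q248.RP.Mirror

/-!
# Families of weighted halves
-/

set_option autoImplicit false
set_option linter.unusedSectionVars false

namespace Pool.Agent.Q248.RP

open Polynomial Finset
open Pool.Agent.H207R2.BL

noncomputable section

theorem ind_union {T κ : Type} [DecidableEq T] (A B : Finset (Sym2 T)) (g : T → κ) :
    ind (comp (A ∪ B)) g = ind (comp A) g * ind (comp B) g := by
  classical
  unfold ind
  have h : comp (A ∪ B) ≤ Setoid.ker g ↔ comp A ≤ Setoid.ker g ∧ comp B ≤ Setoid.ker g := by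
    rw [comp_le_iff, comp_le_iff, comp_le_iff]
    constructor
    · intro h
      exact ⟨fun e he => h e (mem_union_left _ he), fun e he => h e (mem_union_right _ he)⟩
    · rintro ⟨h1, h2⟩ e he
      rcases mem_union.1 he with he | he
      · exact h1 e he
      · exact h2 e he
  by_cases h1 : comp A ≤ Setoid.ker g <;> by_cases h2 : comp B ≤ Setoid.ker g <;>
    simp [h, h1, h2]

theorem ind_image {T T' κ : Type} [DecidableEq T'] (f : T → T') (A : Finset (Sym2 T))
    (g : T' → κ) : ind (comp (A.image (Sym2.map f))) g = ind (comp A) (g ∘ f) := by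
  classical
  unfold ind
  have h : comp (A.image (Sym2.map f)) ≤ Setoid.ker g ↔ comp A ≤ Setoid.ker (g ∘ f) := by
    rw [comp_le_iff, comp_le_iff]
    constructor
    · intro h e he
      have := h _ (mem_image_of_mem _ he)
      rwa [Sym2.map_map] at this
    · intro h e he
      obtain ⟨e0, he0, rfl⟩ := mem_image.1 he
      rw [Sym2.map_map]
      exact h e0 he0
  simp only [h]

section

variable {V W : Type} {n : ℕ} [Fintype V] [DecidableEq V] [Fintype W] [DecidableEq W]

/-- the partition function of two glued halves, as a polynomial -/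
def Gp (S : Finset (Sym2 (V ⊕ Fin n))) (u : Sym2 (V ⊕ Fin n) → ℝ)
    (T : Finset (Sym2 (W ⊕ Fin n))) (v : Sym2 (W ⊕ Fin n) → ℝ) : ℝ[X] :=
  ∑ A ∈ S.powerset, ∑ B ∈ T.powerset, C ((∏ e ∈ A, u e) * ∏ e ∈ B, v e) *
    X ^ kc (A.image (Sym2.map i1) ∪ B.image (Sym2.map i2))

theorem Gp_nat (S : Finset (Sym2 (V ⊕ Fin n))) (u : Sym2 (V ⊕ Fin n) → ℝ)
    (T : Finset (Sym2 (W ⊕ Fin n))) (v : Sym2 (W ⊕ Fin n) → ℝ) (k : ℕ) :
    (Gp S u T v).eval (k : ℝ) = ∑ c : Fin n → Fin k, innerw S u k c * innerw T v k c := by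
  unfold Gp
  simp only [Polynomial.eval_finsetSum, Polynomial.eval_mul, Polynomial.eval_C,
    Polynomial.eval_pow, Polynomial.eval_X]
  simp_rw [← sum_ind_self, ind_union, ind_image]
  have h1 : ∀ g : (V ⊕ W) ⊕ Fin n → Fin k,
      ∑ A ∈ S.powerset, ∑ B ∈ T.powerset, ((∏ e ∈ A, u e) * ∏ e ∈ B, v e) *
        (ind (comp A) (g ∘ i1) * ind (comp B) (g ∘ i2)) =
      pw S u (g ∘ i1) * pw T v (g ∘ i2) := by
    intro g
    rw [pw_expand, pw_expand, Finset.sum_mul_sum]
    refine Finset.sum_congr rfl (fun A _ => Finset.sum_congr rfl (fun B _ => ?_))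
    ring
  have h2 : ∑ A ∈ S.powerset, ∑ B ∈ T.powerset, ((∏ e ∈ A, u e) * ∏ e ∈ B, v e) *
      ∑ g : (V ⊕ W) ⊕ Fin n → Fin k, (ind (comp A) (g ∘ i1) * ind (comp B) (g ∘ i2)) =
      ∑ g : (V ⊕ W) ⊕ Fin n → Fin k, pw S u (g ∘ i1) * pw T v (g ∘ i2) := by
    simp_rw [← h1, Finset.mul_sum]
    rw [Finset.sum_comm (s := Finset.univ) (t := S.powerset)]
    exact Finset.sum_congr rfl (fun A _ => Finset.sum_comm)
  rw [h2, sum_elim]
  refine Finset.sum_congr rfl (fun c _ => ?_)
  unfold innerw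
  rw [Finset.sum_mul_sum]
  refine Finset.sum_congr rfl (fun x _ => Finset.sum_congr rfl (fun y _ => ?_))
  congr 2
  · funext a; rcases a with a | a <;> rfl
  · funext a; rcases a with a | a <;> rfl

/-- weight `-1`: proper colourings -/
theorem pw_neg_one (N : SimpleGraph (V ⊕ Fin n)) (S : Finset (Sym2 (V ⊕ Fin n)))
    (hS : ∀ e, e ∈ S ↔ e ∈ N.edgeSet) {κ : Type} (g : V ⊕ Fin n → κ) :
    pw S (fun _ => -1) g = pr N g := by
  classical
  have : S = N.edgeFinset := by
    ext e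
    rw [hS, SimpleGraph.mem_edgeFinset]
  rw [pw_expand, pr_expand, this]
  refine Finset.sum_congr rfl (fun A _ => ?_)
  simp

theorem innerw_neg_one (N : SimpleGraph (V ⊕ Fin n)) (S : Finset (Sym2 (V ⊕ Fin n)))
    (hS : ∀ e, e ∈ S ↔ e ∈ N.edgeSet) (k : ℕ) (c : Fin n → Fin k) :
    innerw S (fun _ => -1) k c = Pool.Agent.H207R2.BL.inner N k c := by
  unfold innerw Pool.Agent.H207R2.BL.inner
  exact Finset.sum_congr rfl (fun x _ => pw_neg_one N S hS _)

/-- weight `-1`: the chromatic polynomial -/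
theorem Gp_chrom (N : SimpleGraph (V ⊕ Fin n)) (S : Finset (Sym2 (V ⊕ Fin n)))
    (hS : ∀ e, e ∈ S ↔ e ∈ N.edgeSet)
    (M : SimpleGraph (W ⊕ Fin n)) (T : Finset (Sym2 (W ⊕ Fin n)))
    (hT : ∀ e, e ∈ T ↔ e ∈ M.edgeSet) (p : ℝ[X]) (hp : IsChrom (glue N M) p) :
    Gp S (fun _ => -1) T (fun _ => -1) = p := by
  apply poly_ext
  intro k
  rw [Gp_nat, hp k, card_glue]
  refine Finset.sum_congr rfl (fun c _ => ?_)
  rw [innerw_neg_one N S hS, innerw_neg_one M T hT]

end

/-! ### multiplicities -/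

/-- an inequality `r² ≤ C p` to the right of `a` gives `(X - a)^l ∣ r` if `(X - a)^(2l) ∣ p` -/
theorem dvd_of_sq_le (p r c : ℝ[X]) (a : ℝ)
    (h : ∀ x : ℝ, a ≤ x → r.eval x ^ 2 ≤ c.eval x * p.eval x) (l : ℕ)
    (hl : (X - C a) ^ (2 * l) ∣ p) : (X - C a) ^ l ∣ r := by
  obtain ⟨t, rfl⟩ := hl
  suffices H : ∀ j, j ≤ l → (X - C a) ^ j ∣ r from H l le_rfl
  intro j
  induction j with
  | zero => intro _; simp
  | succ j ih =>
    intro hj
    obtain ⟨s, rfl⟩ := ih (by omega)
    rw [pow_succ]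
    apply mul_dvd_mul_left
    rw [Polynomial.dvd_iff_isRoot, Polynomial.IsRoot]
    obtain ⟨d, hd⟩ : ∃ d, 2 * l = 2 * j + (d + 1) := ⟨2 * l - 2 * j - 1, by omega⟩
    have h1 : ∀ x : ℝ, a < x → s.eval x ^ 2 ≤ c.eval x * ((x - a) ^ (d + 1) * t.eval x) := by
      intro x hx
      have := h x hx.le
      simp only [eval_mul, eval_pow, eval_sub, eval_X, eval_C] at this
      have hp : 0 < (x - a) ^ (2 * j) := pow_pos (by linarith) _
      rw [hd, pow_add] at this
      have h2 : ((x - a) ^ j * s.eval x) ^ 2 = (x - a) ^ (2 * j) * s.eval x ^ 2 := by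
        rw [mul_pow, ← pow_mul, mul_comm j 2]
      rw [h2] at this
      have h3 : (x - a) ^ (2 * j) * s.eval x ^ 2 ≤
          (x - a) ^ (2 * j) * (c.eval x * ((x - a) ^ (d + 1) * t.eval x)) := by
        calc (x - a) ^ (2 * j) * s.eval x ^ 2 ≤
            c.eval x * ((x - a) ^ (2 * j) * (x - a) ^ (d + 1) * t.eval x) := this
          _ = _ := by ring
      exact le_of_mul_le_mul_left h3 hp
    have h4 : s.eval a ^ 2 ≤ c.eval a * ((a - a) ^ (d + 1) * t.eval a) := by
      have c1 : Continuous (fun x : ℝ => s.eval x ^ 2) := s.continuous.pow 2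
      have c2 : Continuous (fun x : ℝ => c.eval x * ((x - a) ^ (d + 1) * t.eval x)) :=
        c.continuous.mul (((continuous_id.sub continuous_const).pow _).mul t.continuous)
      have t1 := (c1.tendsto a).mono_left (nhdsWithin_le_nhds (s := Set.Ioi a))
      have t2 := (c2.tendsto a).mono_left (nhdsWithin_le_nhds (s := Set.Ioi a))
      exact le_of_tendsto_of_tendsto t1 t2 (Filter.eventually_of_mem self_mem_nhdsWithin h1)
    have h5 : s.eval a ^ 2 ≤ 0 := by
      refine h4.trans_eq ?_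
      rw [sub_self, zero_pow (Nat.succ_ne_zero d)]
      ring
    exact pow_eq_zero_iff (two_ne_zero) |>.1 (le_antisymm h5 (sq_nonneg _))

/-- a polynomial which is nonnegative near `a` has a root of even multiplicity at `a` -/
theorem dvd_even (p : ℝ[X]) (a b : ℝ) (hab : b < a) (h : ∀ x : ℝ, b ≤ x → 0 ≤ p.eval x) (l : ℕ)
    (hl : (X - C a) ^ (2 * l + 1) ∣ p) : (X - C a) ^ (2 * l + 2) ∣ p := by
  obtain ⟨t, rfl⟩ := hl
  rw [pow_succ _ (2 * l + 1)]
  apply mul_dvd_mul_left
  rw [Polynomial.dvd_iff_isRoot, Polynomial.IsRoot]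
  have key : ∀ x : ℝ, b < x → 0 ≤ (x - a) ^ (2 * l + 1) * t.eval x := by
    intro x hx
    have := h x hx.le
    simpa only [eval_mul, eval_pow, eval_sub, eval_X, eval_C] using this
  have h1 : 0 ≤ t.eval a := by
    have t1 := (t.continuous.tendsto a).mono_left (nhdsWithin_le_nhds (s := Set.Ioi a))
    refine ge_of_tendsto t1 (Filter.eventually_of_mem self_mem_nhdsWithin ?_)
    intro x hx
    have hx' : a < x := hx
    exact nonneg_of_mul_nonneg_right (key x (by linarith)) (pow_pos (by linarith) _)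
  have h2 : t.eval a ≤ 0 := by
    have t1 := (t.continuous.tendsto a).mono_left (nhdsWithin_le_nhds (s := Set.Iio a))
    refine le_of_tendsto t1 ?_
    have hm : Set.Ioo b a ∈ nhdsWithin a (Set.Iio a) := Ioo_mem_nhdsLT hab
    refine Filter.eventually_of_mem hm ?_
    intro x hx
    have hneg : (x - a) ^ (2 * l + 1) < 0 := Odd.pow_neg ⟨l, rfl⟩ (by linarith [hx.2])
    by_contra hcon
    push Not at hcon
    have := mul_neg_of_neg_of_pos hneg hcon
    linarith [key x hx.1]
  exact le_antisymm h2 h1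

end

end Pool.Agent.Q248.RP
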